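import Pool.Agent.Helper56.CP.Stmts

set_option autoImplicit false

open Finset Filter Topology

namespace Pool.Agent.Helper56.CP

lemma cw_PP (n : ℕ) (hn : 2 ≤ n) : PP n = insert 2 (OP n) := by
  ext l
  unfold PP OP
  simp only [Finset.mem_filter, Finset.mem_range, Finset.mem_insert, Finset.mem_Icc]
  constructor
  · rintro ⟨h1, h2⟩
    rcases eq_or_lt_of_le h2.two_le with h | h
    · left; exact h.symm
    · right; exact ⟨⟨by omega, by omega⟩, h2⟩
  · rintro (h | ⟨h1, h2⟩)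
    · subst h; exact ⟨by omega, Nat.prime_two⟩
    · exact ⟨by omega, h2⟩

lemma cw_eq (n : ℕ) (hn : 2 ≤ n) : cw n = tw n * (2 * ∏ p ∈ PP n, (1 - 1 / (p : ℝ))) := by
  have h2 : (2 : ℕ) ∉ OP n := by
    unfold OP
    simp
  rw [cw_PP n hn, Finset.prod_insert h2]
  have h3 : (2 : ℝ) * ((1 - 1 / ((2 : ℕ) : ℝ)) * ∏ p ∈ OP n, (1 - 1 / (p : ℝ))) =
      ∏ p ∈ OP n, (1 - 1 / (p : ℝ)) := by
    push_cast
    ring
  rw [h3]
  unfold cw tw
  rw [← Finset.prod_mul_distrib]
  apply Finset.prod_congr rfl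
  intro l hl
  unfold OP at hl
  rw [Finset.mem_filter, Finset.mem_Icc] at hl
  have h4 : (3 : ℝ) ≤ l := by exact_mod_cast hl.1.1
  have h5 : (l : ℝ) - 1 ≠ 0 := by linarith
  have h6 : (l : ℝ) ≠ 0 := by linarith
  field_simp
  ring

theorem st_CW (hM : ST_M3) (hC : ST_C2) : ST_CW := by
  intro ε hε
  obtain ⟨hC1, hC2, -⟩ := hC
  have hC0 : 0 < C₂ := by linarith
  -- choose η with (1+η)^2 ≤ 1+ε
  set η : ℝ := min 1 (ε / 3) with hη
  have hη0 : 0 < η := lt_min one_pos (by linarith)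
  have hη1 : η ≤ 1 := min_le_left _ _
  have hη3 : η ≤ ε / 3 := min_le_right _ _
  have hη4 : (1 + η) * (1 + η) ≤ 1 + ε := by nlinarith
  have e1 := hM η hη0
  have e2 : ∀ᶠ n in atTop, tw n < (1 + η) * C₂ := hC2.eventually_lt_const (by nlinarith)
  filter_upwards [e1, e2, eventually_ge_atTop 2] with n h1 h2 hn
  have hlog : 0 < Real.log n := Real.log_pos (by exact_mod_cast hn)
  have hpos : 0 ≤ ∏ p ∈ PP n, (1 - 1 / (p : ℝ)) := by
    apply Finset.prod_nonneg
    intro p hp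
    unfold PP at hp
    rw [Finset.mem_filter] at hp
    have h3 : (2 : ℝ) ≤ p := by exact_mod_cast hp.2.two_le
    have h4 : 1 / (p : ℝ) ≤ 1 / 2 := one_div_le_one_div_of_le (by norm_num) h3
    linarith
  rw [cw_eq n hn]
  set E := Real.exp (-Real.eulerMascheroniConstant) with hE
  have hE0 : 0 < E := Real.exp_pos _
  calc tw n * (2 * ∏ p ∈ PP n, (1 - 1 / (p : ℝ)))
      ≤ ((1 + η) * C₂) * (2 * ((1 + η) * E / Real.log n)) := by
        apply mul_le_mul h2.le _ (by positivity) (by positivity)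
        linarith
    _ = ((1 + η) * (1 + η)) * (2 * E * C₂ / Real.log n) := by ring
    _ ≤ (1 + ε) * (2 * E * C₂ / Real.log n) :=
        mul_le_mul_of_nonneg_right hη4 (by positivity)
    _ = (1 + ε) * (2 * E * C₂) / Real.log n := by ring

end Pool.Agent.Helper56.CP
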