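import Pool.Agent.Helper56.CP.Stmts

set_option autoImplicit false

open Finset Filter Topology

namespace Pool.Agent.Helper56.CP

lemma fin_kappa (k0 c : ℝ) (hk : 0 < k0) (hc : c < 1 / (2 * k0)) :
    ∃ κ : ℝ, k0 < κ ∧ c < 1 / (2 * κ) := by
  have hcont : ContinuousAt (fun κ : ℝ => 1 / (2 * κ)) k0 := by
    apply ContinuousAt.div continuousAt_const
    · exact continuousAt_const.mul continuousAt_id
    · positivity
  have h1 : ∀ᶠ κ in 𝓝 k0, c < 1 / (2 * κ) := hcont.eventually (lt_mem_nhds hc)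
  have h2 : ∀ᶠ κ in 𝓝[>] k0, c < 1 / (2 * κ) := h1.filter_mono nhdsWithin_le_nhds
  have h3 : ∀ᶠ κ in 𝓝[>] k0, k0 < κ := eventually_mem_nhdsWithin
  obtain ⟨κ, h4, h5⟩ := (h2.and h3).exists
  exact ⟨κ, h5, h4⟩

lemma fin_asym1 (B c : ℝ) : ∀ᶠ L : ℝ in atTop,
    3 * B * Real.exp L + 1 ≤ Real.exp (Real.exp L - c * L ^ 2) / 2 := by
  have h1 : Tendsto (fun L : ℝ => Real.exp L / L ^ 2) atTop atTop :=
    Real.tendsto_exp_div_pow_atTop 2
  have e1 := h1.eventually_ge_atTop (|c| + 2 + 2 * (6 * |B| + 2))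
  filter_upwards [e1, eventually_ge_atTop (1 : ℝ)] with L h2 hL
  have hL2 : (0 : ℝ) < L ^ 2 := by positivity
  rw [le_div_iff₀ hL2] at h2
  set K : ℝ := 6 * |B| + 2 with hK
  have hK0 : 2 ≤ K := by have := abs_nonneg B; linarith
  have hL1 : L ≤ L ^ 2 := by nlinarith
  have h3 : c * L ^ 2 ≤ |c| * L ^ 2 := mul_le_mul_of_nonneg_right (le_abs_self c) hL2.le
  have h4 : L + K ≤ Real.exp L - c * L ^ 2 := by nlinarith
  have h5 : Real.exp (L + K) ≤ Real.exp (Real.exp L - c * L ^ 2) := Real.exp_le_exp.mpr h4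
  have h6 : Real.exp (L + K) = Real.exp L * Real.exp K := Real.exp_add _ _
  have h7 : K ≤ Real.exp K := by
    have := Real.add_one_le_exp K
    linarith
  have h8 : (1 : ℝ) ≤ Real.exp L := Real.one_le_exp (by linarith)
  have h9 : Real.exp L * K ≤ Real.exp L * Real.exp K := mul_le_mul_of_nonneg_left h7 (by positivity)
  have h10 : B ≤ |B| := le_abs_self B
  have h11 : 3 * B * Real.exp L ≤ 3 * |B| * Real.exp L := by
    apply mul_le_mul_of_nonneg_right _ (by positivity)
    linarith
  have h12 : 3 * |B| * Real.exp L + 1 ≤ Real.exp L * K / 2 := by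
    rw [hK]; nlinarith
  calc 3 * B * Real.exp L + 1 ≤ Real.exp L * K / 2 := by linarith
    _ ≤ Real.exp (Real.exp L - c * L ^ 2) / 2 := by
        rw [h6] at h5
        linarith

lemma fin_asym2 (δ a b C' : ℝ) (hδ : 0 < δ) : ∀ᶠ L : ℝ in atTop,
    a * L + b + C' * (L * Real.log L) ≤ δ * L ^ 2 := by
  have h1 : ∀ᶠ L : ℝ in atTop, ‖Real.log L‖ ≤ (δ / (2 * (|C'| + 1))) * ‖(id L : ℝ)‖ :=
    Real.isLittleO_log_id_atTop.def (by positivity)
  filter_upwards [h1, eventually_ge_atTop (1 : ℝ),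
    eventually_ge_atTop (2 * (|a| + |b|) / δ)] with L h2 hL h3
  have hL0 : 0 < L := by linarith
  rw [div_le_iff₀ hδ] at h3
  simp only [id, Real.norm_eq_abs, abs_of_pos hL0] at h2
  have h4 : |Real.log L| * (2 * (|C'| + 1)) ≤ δ * L := by
    have h5 := mul_le_mul_of_nonneg_right h2 (by positivity : (0 : ℝ) ≤ 2 * (|C'| + 1))
    have h6 : δ / (2 * (|C'| + 1)) * L * (2 * (|C'| + 1)) = δ * L := by
      field_simp
    linarith
  have h7 : C' * (L * Real.log L) ≤ |C'| * (L * |Real.log L|) := by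
    calc C' * (L * Real.log L) ≤ |C' * (L * Real.log L)| := le_abs_self _
      _ = |C'| * (L * |Real.log L|) := by rw [abs_mul, abs_mul, abs_of_pos hL0]
  have h8 : |C'| * (L * |Real.log L|) ≤ δ / 2 * L ^ 2 := by
    have h9 : 2 * (|C'| * |Real.log L|) ≤ δ * L := by
      nlinarith [abs_nonneg (Real.log L), abs_nonneg C']
    nlinarith
  have h10 : a * L ≤ |a| * L := mul_le_mul_of_nonneg_right (le_abs_self a) hL0.le
  have h11 : b ≤ |b| * L := by nlinarith [le_abs_self b, abs_nonneg b]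
  have h12 : (|a| + |b|) * L ≤ δ / 2 * L ^ 2 := by nlinarith
  nlinarith

lemma fin_prod (B κ : ℝ) (hB : 1 ≤ B) (hκ : 0 < κ) (m : ℕ) :
    ∏ N ∈ range (m + 1), ((⌊B * Real.exp (κ * N)⌋₊ : ℝ) + 1) ≤
      (2 * B) ^ (m + 1) * Real.exp (κ * (m * (m + 1)) / 2) := by
  induction m with
  | zero =>
    simp only [zero_add, range_one, prod_singleton, Nat.cast_zero, mul_zero, Real.exp_zero, mul_one,
      pow_one, zero_mul, zero_div]
    have := Nat.floor_le (show 0 ≤ B by linarith)
    linarith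
  | succ m ih =>
    rw [prod_range_succ, pow_succ (2 * B) (m + 1)]
    have h1 : ((⌊B * Real.exp (κ * ((m + 1 : ℕ) : ℝ))⌋₊ : ℝ) + 1) ≤
        2 * B * Real.exp (κ * ((m + 1 : ℕ) : ℝ)) := by
      have h2 : (1 : ℝ) ≤ Real.exp (κ * ((m + 1 : ℕ) : ℝ)) := Real.one_le_exp (by positivity)
      have h3 := Nat.floor_le (show 0 ≤ B * Real.exp (κ * ((m + 1 : ℕ) : ℝ)) by positivity)
      nlinarith
    calc (∏ N ∈ range (m + 1), ((⌊B * Real.exp (κ * N)⌋₊ : ℝ) + 1)) *
          ((⌊B * Real.exp (κ * ((m + 1 : ℕ) : ℝ))⌋₊ : ℝ) + 1)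
        ≤ ((2 * B) ^ (m + 1) * Real.exp (κ * (m * (m + 1)) / 2)) *
          (2 * B * Real.exp (κ * ((m + 1 : ℕ) : ℝ))) := by
          apply mul_le_mul ih h1 (by positivity) (by positivity)
      _ = (2 * B) ^ (m + 1) * (2 * B) *
          Real.exp (κ * (((m + 1 : ℕ) : ℝ) * (((m + 1 : ℕ) : ℝ) + 1)) / 2) := by
          have : Real.exp (κ * (((m + 1 : ℕ) : ℝ) * (((m + 1 : ℕ) : ℝ) + 1)) / 2) =
              Real.exp (κ * (m * (m + 1)) / 2) * Real.exp (κ * ((m + 1 : ℕ) : ℝ)) := by
            rw [← Real.exp_add]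
            congr 1
            push_cast
            ring
          rw [this]
          ring

theorem st_FIN (hG : ST_GRO) (hS : ST_SIV) (hT : ST_TUP) (hC : ST_C2) : ST_FIN := by
  classical
  intro c hc
  obtain ⟨hC1, -, -⟩ := hC
  have hC0 : 0 < C₂ := by linarith
  set γ := Real.eulerMascheroniConstant with hγ
  set k0 : ℝ := 2 * Real.exp (-γ) * C₂ with hk0
  have hk0p : 0 < k0 := by positivity
  have hk0' : Real.exp γ / (4 * C₂) = 1 / (2 * k0) := by
    rw [hk0, Real.exp_neg]
    field_simp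
    ring
  rw [hk0'] at hc
  obtain ⟨κ, hκ, hcκ⟩ := fin_kappa k0 c hk0p hc
  have hκ0 : 0 < κ := hk0p.trans hκ
  obtain ⟨B, hB, hG⟩ := hG κ hκ
  set C : ℝ := 2 + 1 / κ with hCdef
  have hC2 : 2 ≤ C := by have : 0 < 1 / κ := by positivity
                         linarith
  obtain ⟨C', x₁, hS⟩ := hS C (by linarith)
  set δ : ℝ := 1 / (2 * κ) - c with hδ
  have hδ0 : 0 < δ := by linarith
  have hB0 : 0 < B := by linarith
  have hlB : 0 ≤ Real.log (2 * B) := Real.log_nonneg (by linarith)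
  -- eventually in L
  have E1 := fin_asym1 B c
  have E2 := fin_asym2 δ (Real.log (2 * B) / κ) (Real.log (2 * B) + Real.log 2) C' hδ0
  have E3 : ∀ᶠ L : ℝ in atTop, B ≤ Real.exp L :=
    Real.tendsto_exp_atTop.eventually_ge_atTop B
  have E := ((E1.and E2).and E3).and (eventually_ge_atTop (1 : ℝ))
  obtain ⟨L₀, hL₀⟩ := Filter.eventually_atTop.mp E
  refine ⟨max x₁ (Real.exp (Real.exp (max L₀ 1))), fun x hx => ?_⟩
  have hx1 : x₁ ≤ x := (le_max_left _ _).trans hx
  have hx2 : Real.exp (Real.exp (max L₀ 1)) ≤ x := (le_max_right _ _).trans hx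
  have hx0 : (0 : ℝ) < x := (Real.exp_pos _).trans_le hx2
  have hlx : Real.exp (max L₀ 1) ≤ Real.log x := by
    rw [Real.le_log_iff_exp_le hx0]; exact hx2
  have hlx0 : 0 < Real.log x := (Real.exp_pos _).trans_le hlx
  set L : ℝ := Real.log (Real.log x) with hL
  have hLL : max L₀ 1 ≤ L := by
    rw [hL, Real.le_log_iff_exp_le hlx0]; exact hlx
  have hexpL : Real.exp L = Real.log x := Real.exp_log hlx0
  have hxe : (x : ℝ) = Real.exp (Real.exp L) := by rw [hexpL, Real.exp_log hx0]
  obtain ⟨⟨⟨e1, e2⟩, e3⟩, e4⟩ := hL₀ L ((le_max_left _ _).trans hLL)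
  have hL1 : 1 ≤ L := e4
  have hL0 : 0 < L := by linarith
  set m : ℕ := ⌊L / κ⌋₊ with hm
  have hm1 : (m : ℝ) ≤ L / κ := Nat.floor_le (by positivity)
  have hm2 : L / κ < m + 1 := Nat.lt_floor_add_one _
  have hκm : κ * m ≤ L := by
    rw [le_div_iff₀ hκ0] at hm1
    linarith
  have hκm2 : L < κ * (m + 1) := by
    rw [div_lt_iff₀ hκ0] at hm2
    linarith
  set R : ℕ → ℕ := fun N => ⌊B * Real.exp (κ * N)⌋₊ with hR
  have hRm : Monotone R := by
    intro a b hab
    apply Nat.floor_le_floor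
    apply mul_le_mul_of_nonneg_left _ hB0.le
    apply Real.exp_le_exp.mpr
    have : (a : ℝ) ≤ b := by exact_mod_cast hab
    nlinarith
  have hexpm : Real.exp (κ * m) ≤ Real.exp L := Real.exp_le_exp.mpr hκm
  set T : Finset ℕ := (range (x + 1)).filter (fun p => Clu p ∧ 3 * B * Real.exp (κ * m) ≤ (p : ℝ))
    with hTdef
  set F : ℝ := x * Real.exp (-((m + 1 : ℕ) * L) + C' * (L * Real.log L)) with hF
  have hT1 : (T.card : ℝ) ≤ (∏ N ∈ range (m + 1), ((R N : ℝ) + 1)) * F := by
    apply hT m R T F hRm (by positivity)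
    · intro p hp N hN
      rw [hTdef, Finset.mem_filter] at hp
      apply hG N p hp.2.1
      refine le_trans ?_ hp.2.2
      apply mul_le_mul_of_nonneg_left _ (by positivity)
      apply Real.exp_le_exp.mpr
      have : (N : ℝ) ≤ m := by exact_mod_cast hN
      nlinarith
    · intro S hSc hSa
      have h1 := hS x S hx1 (by rw [← Finset.card_pos]; omega) (by
        rw [hSc]
        push_cast
        have : C * L = 2 * L + L / κ := by rw [hCdef]; ring
        rw [← hL, this]
        linarith) (by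
        intro a ha
        have h2 : (a : ℝ) ≤ R m := by exact_mod_cast hSa a ha
        have h3 : (R m : ℝ) ≤ B * Real.exp (κ * m) := Nat.floor_le (by positivity)
        have h4 : B * Real.exp (κ * m) ≤ Real.log x * Real.log x := by
          rw [← hexpL]
          exact mul_le_mul e3 hexpm (by positivity) (by positivity)
        have h5 : Real.log x * Real.log x = Real.log x ^ (2 : ℝ) := by
          rw [Real.rpow_two]; ring
        have h6 : Real.log x ^ (2 : ℝ) ≤ Real.log x ^ C := by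
          apply Real.rpow_le_rpow_of_exponent_le _ hC2
          rw [← hexpL]
          exact Real.one_le_exp hL0.le
        exact h2.trans (h3.trans (h4.trans (h5.le.trans h6))))
      rw [hSc, ← hL] at h1
      refine le_trans ?_ h1
      have h7 : T.filter (fun p => ∀ a ∈ S, (p - a).Prime) ⊆
          (range (x + 1)).filter (fun n => ∀ a ∈ S, (n - a).Prime) := by
        intro p hp
        rw [Finset.mem_filter] at hp ⊢
        exact ⟨(Finset.mem_filter.mp hp.1).1, hp.2⟩
      exact_mod_cast Finset.card_le_card h7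
  -- cardinality
  have hcard : (({p ∈ range (x + 1) | Clu p} : Set ℕ).ncard : ℝ) ≤
      T.card + (3 * B * Real.exp L + 1) := by
    have h1 : ({p ∈ range (x + 1) | Clu p} : Set ℕ) ⊆
        (T ∪ range (⌊3 * B * Real.exp (κ * m)⌋₊ + 1) : Finset ℕ) := by
      intro p hp
      simp only [Set.mem_ofPred_eq] at hp
      rw [Finset.mem_coe, Finset.mem_union]
      by_cases h2 : 3 * B * Real.exp (κ * m) ≤ (p : ℝ)
      · left
        rw [hTdef, Finset.mem_filter]
        exact ⟨hp.1, hp.2, h2⟩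
      · right
        rw [Finset.mem_range]
        push Not at h2
        have := Nat.le_floor h2.le
        omega
    have h3 := Set.ncard_le_ncard h1 (Finset.finite_toSet _)
    rw [Set.ncard_coe_finset] at h3
    have h4 := Finset.card_union_le T (range (⌊3 * B * Real.exp (κ * m)⌋₊ + 1))
    rw [Finset.card_range] at h4
    have h5 : (({p ∈ range (x + 1) | Clu p} : Set ℕ).ncard : ℝ) ≤
        T.card + (⌊3 * B * Real.exp (κ * m)⌋₊ + 1 : ℕ) := by exact_mod_cast h3.trans h4
    have h6 : (⌊3 * B * Real.exp (κ * m)⌋₊ : ℝ) ≤ 3 * B * Real.exp (κ * m) :=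
      Nat.floor_le (by positivity)
    have h7 : 3 * B * Real.exp (κ * m) ≤ 3 * B * Real.exp L :=
      mul_le_mul_of_nonneg_left hexpm (by positivity)
    push_cast at h5
    linarith
  -- main term
  have hmain : (∏ N ∈ range (m + 1), ((R N : ℝ) + 1)) * F ≤
      Real.exp (Real.exp L - c * L ^ 2) / 2 := by
    have h1 := fin_prod B κ hB hκ0 m
    have h2 : (2 * B) ^ (m + 1) = Real.exp (((m + 1 : ℕ) : ℝ) * Real.log (2 * B)) := by
      rw [← Real.log_pow, Real.exp_log (by positivity)]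
    have hF0 : 0 ≤ F := by positivity
    calc (∏ N ∈ range (m + 1), ((R N : ℝ) + 1)) * F
        ≤ ((2 * B) ^ (m + 1) * Real.exp (κ * (m * (m + 1)) / 2)) * F :=
          mul_le_mul_of_nonneg_right h1 hF0
      _ = Real.exp (((m + 1 : ℕ) : ℝ) * Real.log (2 * B) + κ * (m * (m + 1)) / 2 +
            (Real.exp L + (-((m + 1 : ℕ) * L) + C' * (L * Real.log L)))) := by
          rw [h2, hF, hxe, ← Real.exp_add, ← Real.exp_add, ← Real.exp_add]
      _ ≤ Real.exp (Real.exp L - c * L ^ 2 - Real.log 2) := by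
          apply Real.exp_le_exp.mpr
          push_cast
          have h3 : κ * (m * (m + 1)) / 2 - (m + 1) * L ≤ - (L ^ 2 / (2 * κ)) := by
            have h4 : κ * (m * (m + 1)) / 2 - (m + 1) * L = (m + 1) * (κ * m / 2 - L) := by ring
            have h5 : (m + 1 : ℝ) * (κ * m / 2 - L) ≤ (m + 1) * (- (L / 2)) := by
              apply mul_le_mul_of_nonneg_left _ (by positivity)
              linarith
            have h6 : (m + 1 : ℝ) * (- (L / 2)) ≤ (L / κ) * (- (L / 2)) := by
              apply mul_le_mul_of_nonpos_right hm2.le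
              linarith
            have h7 : (L / κ) * (- (L / 2)) = - (L ^ 2 / (2 * κ)) := by
              field_simp
            linarith
          have h8 : ((m : ℝ) + 1) * Real.log (2 * B) ≤
              Real.log (2 * B) / κ * L + Real.log (2 * B) := by
            have h9 : (m : ℝ) * Real.log (2 * B) ≤ L / κ * Real.log (2 * B) :=
              mul_le_mul_of_nonneg_right hm1 hlB
            have h10 : L / κ * Real.log (2 * B) = Real.log (2 * B) / κ * L := by ring
            linarith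
          have h11 : δ * L ^ 2 = L ^ 2 / (2 * κ) - c * L ^ 2 := by rw [hδ]; ring
          linarith
      _ = Real.exp (Real.exp L - c * L ^ 2) / 2 := by
          have h12 : Real.exp (Real.log 2) = 2 := Real.exp_log (by norm_num)
          rw [Real.exp_sub _ (Real.log 2), h12]
  have hfin : (x : ℝ) * Real.exp (- c * L ^ 2) = Real.exp (Real.exp L - c * L ^ 2) := by
    rw [hxe, ← Real.exp_add]
    congr 1
    ring
  rw [hfin]
  linarith

end Pool.Agent.Helper56.CP
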