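import Pool.Agent.Helper56.CP.Stmts

set_option autoImplicit false

open Finset Filter Topology

namespace Pool.Agent.Helper56.CP

lemma num_OP43 : OP 43 = {3, 5, 7, 11, 13, 17, 19, 23, 29, 31, 37, 41, 43} := by
  unfold OP
  decide +kernel

lemma num_tw : tw 43 ≤ 0.6631 := by
  unfold tw
  rw [num_OP43]
  norm_num [Finset.prod_insert, Finset.prod_singleton]

lemma num_gamma : (0.5733 : ℝ) ≤ Real.eulerMascheroniConstant := by
  have h1 := Real.eulerMascheroniSeq_lt_eulerMascheroniConstant 127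
  have h2 : Real.eulerMascheroniSeq 127 = ((harmonic 127 : ℚ) : ℝ) - Real.log 128 := by
    unfold Real.eulerMascheroniSeq
    norm_num
  have h3 : Real.log 128 = 7 * Real.log 2 := by
    rw [show (128 : ℝ) = 2 ^ 7 by norm_num, Real.log_pow]
    norm_num
  have h4 : (5.425334 : ℚ) ≤ harmonic 127 := by
    unfold harmonic
    decide +kernel
  have h5 : ((5.425334 : ℚ) : ℝ) ≤ ((harmonic 127 : ℚ) : ℝ) := by exact_mod_cast h4
  have h6 := Real.log_two_lt_d9
  rw [h2, h3] at h1
  push_cast at h5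
  linarith

theorem st_NUM (hC : ST_C2) : ST_NUM := by
  obtain ⟨hC1, -, hC3⟩ := hC
  have h1 : C₂ ≤ 0.6631 := (hC3 43).trans num_tw
  have h2 : (1.774 : ℝ) ≤ Real.exp Real.eulerMascheroniConstant := by
    have h3 : Real.exp (0.5733 : ℝ) ≤ Real.exp Real.eulerMascheroniConstant :=
      Real.exp_le_exp.mpr num_gamma
    have h4 : (1.774 : ℝ) ≤ Real.exp (0.5733 : ℝ) := by
      have h5 := Real.sum_le_exp_of_nonneg (show (0 : ℝ) ≤ 0.5733 by norm_num) 8
      refine le_trans ?_ h5
      norm_num [Finset.sum_range_succ, Nat.factorial]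
    linarith
  unfold ST_NUM
  rw [lt_div_iff₀ (by linarith)]
  linarith

end Pool.Agent.Helper56.CP
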