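import Pool.Agent.Helper56.CP.Stmts

set_option autoImplicit false

open Finset Filter Topology

namespace Pool.Agent.Helper56.CP

theorem st_TUP : ST_TUP := by
  classical
  intro m R T F hR hF hN hS
  -- facts on the enumeration
  have hlt : ∀ p ∈ T, ∀ N ≤ m, N < Nat.count (fun a => (p - a).Prime) (R N + 1) := by
    intro p hp N hNm
    rw [Nat.count_eq_card_filter_range]
    exact hN p hp N hNm
  have hcardT : ∀ p ∈ T, ∀ N ≤ m, ∀ hf : (Set.ofPred (fun a => (p - a).Prime)).Finite,
      N < hf.toFinset.card := by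
    intro p hp N hNm hf
    refine (hlt p hp N hNm).trans_le ?_
    rw [Nat.count_eq_card_filter_range]
    apply Finset.card_le_card
    intro a ha
    rw [Finset.mem_filter] at ha
    rw [Set.Finite.mem_toFinset]
    exact ha.2
  have hle : ∀ p ∈ T, ∀ N ≤ m, Nat.nth (fun a => (p - a).Prime) N ≤ R N := fun p hp N hNm =>
    Nat.lt_succ_iff.mp (Nat.nth_lt_of_lt_count (hlt p hp N hNm))
  have hmem : ∀ p ∈ T, ∀ N ≤ m, (p - Nat.nth (fun a => (p - a).Prime) N).Prime :=
    fun p hp N hNm => Nat.nth_mem (p := fun a => (p - a).Prime) N (hcardT p hp N hNm)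
  have hmono : ∀ p ∈ T, ∀ N N' : ℕ, N < N' → N' ≤ m →
      Nat.nth (fun a => (p - a).Prime) N < Nat.nth (fun a => (p - a).Prime) N' := by
    intro p hp N N' h h'
    exact Nat.nth_lt_nth' h (hcardT p hp N' h')
  let g : ℕ → (Fin (m + 1) → ℕ) := fun p i => Nat.nth (fun a => (p - a).Prime) i
  have hg : ∀ p ∈ T, g p ∈ Fintype.piFinset (fun i : Fin (m + 1) => range (R i + 1)) := by
    intro p hp
    rw [Fintype.mem_piFinset]
    intro i
    rw [Finset.mem_range]
    exact Nat.lt_succ_iff.mpr (hle p hp i (Nat.lt_succ_iff.mp i.2))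
  have hinj : ∀ p ∈ T, Function.Injective (g p) := by
    intro p hp i j hij
    have hi := Nat.lt_succ_iff.mp i.2
    have hj := Nat.lt_succ_iff.mp j.2
    rcases lt_trichotomy (i : ℕ) j with h | h | h
    · exact absurd hij (hmono p hp i j h hj).ne
    · exact Fin.ext h
    · exact absurd hij.symm (hmono p hp j i h hi).ne
  have hfib : ∀ t ∈ Fintype.piFinset (fun i : Fin (m + 1) => range (R i + 1)),
      ((T.filter (fun p => g p = t)).card : ℝ) ≤ F := by
    intro t _
    rcases (T.filter (fun p => g p = t)).eq_empty_or_nonempty with h | ⟨p₀, hp₀⟩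
    · rw [h]; simpa using hF
    · rw [Finset.mem_filter] at hp₀
      have h1 := hS (univ.image t) (by
        rw [Finset.card_image_of_injective _ (hp₀.2 ▸ hinj p₀ hp₀.1), Finset.card_univ,
          Fintype.card_fin]) (by
        intro a ha
        rw [Finset.mem_image] at ha
        obtain ⟨i, -, rfl⟩ := ha
        rw [← hp₀.2]
        exact (hle p₀ hp₀.1 i (Nat.lt_succ_iff.mp i.2)).trans (hR (Nat.lt_succ_iff.mp i.2)))
      refine le_trans ?_ h1
      have h2 : T.filter (fun p => g p = t) ⊆
          T.filter (fun p => ∀ a ∈ univ.image t, (p - a).Prime) := by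
        intro p hp
        rw [Finset.mem_filter] at hp ⊢
        refine ⟨hp.1, fun a ha => ?_⟩
        rw [Finset.mem_image] at ha
        obtain ⟨i, -, rfl⟩ := ha
        rw [← hp.2]
        exact hmem p hp.1 i (Nat.lt_succ_iff.mp i.2)
      exact_mod_cast Finset.card_le_card h2
  have h3 := Finset.card_eq_sum_card_fiberwise hg
  have h4 : (T.card : ℝ) = ∑ t ∈ Fintype.piFinset (fun i : Fin (m + 1) => range (R i + 1)),
      ((T.filter (fun p => g p = t)).card : ℝ) := by exact_mod_cast h3
  rw [h4]
  calc ∑ t ∈ Fintype.piFinset (fun i : Fin (m + 1) => range (R i + 1)),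
        ((T.filter (fun p => g p = t)).card : ℝ)
      ≤ ∑ t ∈ Fintype.piFinset (fun i : Fin (m + 1) => range (R i + 1)), F :=
        Finset.sum_le_sum hfib
    _ = (∏ N ∈ range (m + 1), ((R N : ℝ) + 1)) * F := by
        rw [Finset.sum_const, nsmul_eq_mul, Fintype.card_piFinset]
        congr 1
        push_cast
        simp only [Finset.card_range]
        rw [← Fin.prod_univ_eq_prod_range (fun N => ((R N : ℝ) + 1)) (m + 1)]
        apply Finset.prod_congr rfl
        intro i _
        push_cast
        ring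

end Pool.Agent.Helper56.CP
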