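import Mathlib

set_option autoImplicit false

/-!
MP_4561bf_nt (cluster primes): definitions and statements of the modules.

Target: for every `c < exp γ / (4 C₂)` (`= 0.6744...`, `C₂` the twin prime constant; in particular for
`c = 2 / 3`) the number of cluster primes up to `x` is at most `x exp (- c (log log x) ^ 2)` for all
large `x`.  Every module proves one `ST_X` from Mathlib and from the modules named in its doc string.
-/

open Finset Filter Topology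

namespace Pool.Agent.Helper56.CP

/-- Odd primes up to `n`. -/
def OP (n : ℕ) : Finset ℕ := (Icc 3 n).filter Nat.Prime

/-- Primes up to `n`. -/
def PP (n : ℕ) : Finset ℕ := (range (n + 1)).filter Nat.Prime

/-- Cluster prime: an odd prime `p` such that every even `k` with `0 < k < p - 2` is a difference of
two primes not above `p`. -/
def Clu (p : ℕ) : Prop := p.Prime ∧ Odd p ∧ ∀ k : ℕ, Even k → 0 < k → k < p - 2 →
  ∃ q r : ℕ, q.Prime ∧ r.Prime ∧ q ≤ p ∧ r ≤ p ∧ q = r + k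

/-- `∏ (1 - 1 / (l - 1))` over the odd primes `l ≤ w`. -/
noncomputable def cw (w : ℕ) : ℝ := ∏ l ∈ OP w, (1 - 1 / ((l : ℝ) - 1))

/-- Partial product of the twin prime constant. -/
noncomputable def tw (w : ℕ) : ℝ := ∏ l ∈ OP w, (1 - 1 / ((l : ℝ) - 1) ^ 2)

/-- The twin prime constant `∏_{l ≥ 3} (1 - 1 / (l - 1)^2)` (the partial products decrease). -/
noncomputable def C₂ : ℝ := ⨅ n : ℕ, tw n

/-- The numbers `a ≤ R` with `p - a` prime. -/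
def Ap (p R : ℕ) : Finset ℕ := (range (R + 1)).filter (fun a => (p - a).Prime)

/-! ### The covering argument -/

/-- GRD1 (greedy choice). A set `A` that avoids one residue class modulo every prime of `Q`: one can
choose one class `b l` for every `l ∈ Q` so that at most `|A| ∏ (1 - 1 / (l - 1))` elements of `A` lie in
none of the chosen classes. -/
def ST_GRD1 : Prop := ∀ (Q A : Finset ℕ) (u : ℕ), (∀ l ∈ Q, l.Prime ∧ 3 ≤ l) →
  (∀ l ∈ Q, ∀ a ∈ A, a % l ≠ u % l) → ∃ b : ℕ → ℕ,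
  ((A.filter (fun a => ∀ l ∈ Q, a % l ≠ b l % l)).card : ℝ) ≤
    A.card * ∏ l ∈ Q, (1 - 1 / ((l : ℝ) - 1))

/-- GRD (from GRD1): all of `A` can be covered by the classes of one odd number `r₀`. -/
def ST_GRD : Prop := ∀ (w z : ℕ) (A : Finset ℕ) (u : ℕ), 2 ≤ w → w ≤ z →
  (∀ l ∈ OP z, ∀ a ∈ A, a % l ≠ u % l) →
  (A.card : ℝ) * cw w ≤ ((OP z).card : ℝ) - (OP w).card →
  ∃ r₀ : ℕ, Odd r₀ ∧ ∀ a ∈ A, ∃ l ∈ OP z, a % l = r₀ % l

/-- CLU (from GRD): below a cluster prime `p` there are many primes `p - a` with `a ≤ R`. -/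
def ST_CLU : Prop := ∀ p w z N R : ℕ, Clu p → 2 ≤ w → w ≤ z →
  (N : ℝ) * cw w ≤ ((OP z).card : ℝ) - (OP w).card →
  (N + 2) * primorial z ≤ R → R + z < p → N < (Ap p R).card

/-! ### Mertens' third theorem (upper bound for the product) -/

/-- M2: Mertens' second theorem, existence of the constant. -/
def ST_M2 : Prop := ∃ M : ℝ, Tendsto (fun n : ℕ => ∑ p ∈ PP n, 1 / (p : ℝ) - Real.log (Real.log n))
  atTop (𝓝 M)

/-- AB: Abel summation. -/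
def ST_AB : Prop := ∀ M : ℝ,
  Tendsto (fun n : ℕ => ∑ p ∈ PP n, 1 / (p : ℝ) - Real.log (Real.log n)) atTop (𝓝 M) →
  ∀ ε : ℝ, 0 < ε → ∀ᶠ s : ℝ in 𝓝[>] 1,
    ∑' p : Nat.Primes, (p : ℝ) ^ (-s) ≤ - Real.log (s - 1) + M - Real.eulerMascheroniConstant + ε

/-- M3 (from M2, AB): Mertens' third theorem, upper bound. -/
def ST_M3 : Prop := ∀ ε : ℝ, 0 < ε → ∀ᶠ n : ℕ in atTop,
  ∏ p ∈ PP n, (1 - 1 / (p : ℝ)) ≤ (1 + ε) * Real.exp (- Real.eulerMascheroniConstant) / Real.log n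

/-- C2: the twin prime constant is the limit of the partial products and at least `1 / 2`. -/
def ST_C2 : Prop := 1 / 2 ≤ C₂ ∧ Tendsto tw atTop (𝓝 C₂) ∧ ∀ n, C₂ ≤ tw n

/-- CW (from M3, C2). -/
def ST_CW : Prop := ∀ ε : ℝ, 0 < ε → ∀ᶠ n : ℕ in atTop,
  cw n ≤ (1 + ε) * (2 * Real.exp (- Real.eulerMascheroniConstant) * C₂) / Real.log n

/-- NUM: the numerical value of the constant. -/
def ST_NUM : Prop := 2 / 3 < Real.exp Real.eulerMascheroniConstant / (4 * C₂)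

/-- GRO (from CLU, CW, C2): growth of the elements of `Ap p`. -/
def ST_GRO : Prop := ∀ κ : ℝ, 2 * Real.exp (- Real.eulerMascheroniConstant) * C₂ < κ →
  ∃ B : ℝ, 1 ≤ B ∧ ∀ N p : ℕ, Clu p → 3 * B * Real.exp (κ * N) ≤ p →
  N < (Ap p ⌊B * Real.exp (κ * N)⌋₊).card

/-! ### Brun's pure sieve -/

/-- BON: Bonferroni inequality, even truncation, with weights. -/
def ST_BON : Prop := ∀ (Q : Finset ℕ) (x : ℕ → ℝ) (k : ℕ), (∀ l ∈ Q, 0 ≤ x l ∧ x l ≤ 1) →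
  ∏ l ∈ Q, (1 - x l) ≤ ∑ D ∈ Q.powerset.filter (fun D => D.card ≤ 2 * k),
    (-1) ^ D.card * ∏ l ∈ D, x l ∧
  ∑ D ∈ Q.powerset.filter (fun D => D.card ≤ 2 * k), (-1) ^ D.card * ∏ l ∈ D, x l ≤
    ∏ l ∈ Q, (1 - x l) + (∑ l ∈ Q, x l) ^ (2 * k + 1) / (2 * k + 1).factorial

/-- CRT: the number of `n < X` in given classes modulo different primes. -/
def ST_CRT : Prop := ∀ (D : Finset ℕ) (W : ℕ → Finset ℕ) (s X : ℕ), (∀ l ∈ D, l.Prime) →
  (∀ l ∈ D, W l ⊆ range l ∧ (W l).card = s) →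
  |(((range X).filter (fun n => ∀ l ∈ D, n % l ∈ W l)).card : ℝ) - X * ∏ l ∈ D, ((s : ℝ) / l)| ≤
    (s : ℝ) ^ D.card

/-- BRU (from BON, CRT): Brun's pure sieve. -/
def ST_BRU : Prop := ∀ (Q : Finset ℕ) (W : ℕ → Finset ℕ) (s X k : ℕ), (∀ l ∈ Q, l.Prime) →
  (∀ l ∈ Q, W l ⊆ range l ∧ (W l).card = s) →
  (((range X).filter (fun n => ∀ l ∈ Q, n % l ∉ W l)).card : ℝ) ≤
    X * (∏ l ∈ Q, (1 - (s : ℝ) / l) +
      (∑ l ∈ Q, (s : ℝ) / l) ^ (2 * k + 1) / (2 * k + 1).factorial) +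
    (1 + (s : ℝ) * Q.card) ^ (2 * k)

/-- Sieving primes for the set `S`: primes `y0 < l ≤ y` modulo which the elements of `S` are distinct. -/
def SQ (S : Finset ℕ) (y0 y : ℕ) : Finset ℕ := by
  classical
  exact (PP y).filter (fun l => y0 < l ∧ ∀ a ∈ S, ∀ b ∈ S, a ≠ b → a % l ≠ b % l)

/-- SQS (from `Pool.Agent.Helper17.SO.mer_abs`): the sum of the reciprocals of the sieving primes. -/
def ST_SQS : Prop := ∃ C₁ : ℝ, 0 ≤ C₁ ∧ ∀ (S : Finset ℕ) (y0 y : ℕ) (H : ℝ), 2 ≤ y0 → y0 ≤ y →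
  1 ≤ H → (∀ a ∈ S, (a : ℝ) ≤ H) →
  Real.log (Real.log y) - Real.log (Real.log y0) - C₁ - 2 * (S.card : ℝ) ^ 2 * Real.log H / y0 ≤
    ∑ l ∈ SQ S y0 y, 1 / (l : ℝ) ∧
  ∑ l ∈ SQ S y0 y, 1 / (l : ℝ) ≤ Real.log (Real.log y) + C₁

/-- SC (from BRU): upper bound for the number of prime tuples, with parameters. -/
def ST_SC : Prop := ∀ (S : Finset ℕ) (y0 y x k : ℕ) (H : ℝ), S.Nonempty → S.card ≤ y0 →
  (∀ a ∈ S, (a : ℝ) ≤ H) →
  (((range (x + 1)).filter (fun n => ∀ a ∈ S, (n - a).Prime)).card : ℝ) ≤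
    (y + H + 1) + (x + 1) * (Real.exp (- (S.card * ∑ l ∈ SQ S y0 y, 1 / (l : ℝ))) +
      (S.card * ∑ l ∈ SQ S y0 y, 1 / (l : ℝ)) ^ (2 * k + 1) / (2 * k + 1).factorial) +
    (1 + (S.card : ℝ) * y) ^ (2 * k)

/-- SIV (from SQS, SC): tuples of primes, uniformly in the size. -/
def ST_SIV : Prop := ∀ C : ℝ, 1 ≤ C → ∃ C' x₀ : ℝ, ∀ (x : ℕ) (S : Finset ℕ), x₀ ≤ x →
  S.Nonempty → (S.card : ℝ) ≤ C * Real.log (Real.log x) →
  (∀ a ∈ S, (a : ℝ) ≤ (Real.log x) ^ C) →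
  (((range (x + 1)).filter (fun n => ∀ a ∈ S, (n - a).Prime)).card : ℝ) ≤
    x * Real.exp (- (S.card * Real.log (Real.log x)) +
      C' * (Real.log (Real.log x) * Real.log (Real.log (Real.log x))))

/-- TUP: counting by the first `m + 1` elements of `Ap p`. -/
def ST_TUP : Prop := ∀ (m : ℕ) (R : ℕ → ℕ) (T : Finset ℕ) (F : ℝ), Monotone R → 0 ≤ F →
  (∀ p ∈ T, ∀ N ≤ m, N < (Ap p (R N)).card) →
  (∀ S : Finset ℕ, S.card = m + 1 → (∀ a ∈ S, a ≤ R m) →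
    ((T.filter (fun p => ∀ a ∈ S, (p - a).Prime)).card : ℝ) ≤ F) →
  (T.card : ℝ) ≤ (∏ N ∈ range (m + 1), ((R N : ℝ) + 1)) * F

/-- FIN (from GRO, SIV, TUP, C2): the counting function. -/
def ST_FIN : Prop := ∀ c : ℝ, c < Real.exp Real.eulerMascheroniConstant / (4 * C₂) →
  ∃ x₀ : ℝ, ∀ x : ℕ, x₀ ≤ x →
  (({p ∈ range (x + 1) | Clu p} : Set ℕ).ncard : ℝ) ≤
    x * Real.exp (- c * (Real.log (Real.log x)) ^ 2)

end Pool.Agent.Helper56.CP
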