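import Pool.Agent.Helper56.CP.Main
import Pool.Agent.Helper56.CP.FIN
import Pool.Agent.Helper56.CP.TUP
import Pool.Agent.Helper56.CP.CW
import Pool.Agent.Helper56.CP.NUM
import Pool.Agent.Helper13.CP.BON
import Pool.Agent.Helper13.CP.BRU
import Pool.Agent.Helper13.CP.C2
import Pool.Agent.Helper13.CP.CLU
import Pool.Agent.Helper13.CP.CRT
import Pool.Agent.Helper13.CP.SC
import Pool.Agent.Helper15.CP.AB
import Pool.Agent.Helper57.CP.GRO
import Pool.Agent.Helper61.CP.GRD
import Pool.Agent.Helper61.CP.GRD1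
import Pool.Agent.Helper61.CP.M3
import Pool.Agent.Helper71.CP.M2
import Pool.Agent.Helper83.CP.SQS

set_option autoImplicit false

open Finset Filter Topology

namespace Pool.Agent.Helper56.CP

/-- Everything except `SIV`. -/
theorem final_of (hSIV : ST_SQS → ST_SC → ST_SIV) : ∀ c : ℝ,
    (c ≤ 2 / 3 ∨ c < Real.exp Real.eulerMascheroniConstant / (4 * C₂)) →
    ∃ x₀ : ℝ, ∀ x : ℕ, x₀ ≤ x →
    (({p ∈ range (x + 1) | Clu p} : Set ℕ).ncard : ℝ) ≤
      x * Real.exp (- c * (Real.log (Real.log x)) ^ 2) := by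
  have hCW : ST_CW := st_CW Pool.Agent.Helper61.CP.st_M3 st_C2
  have hGRD : ST_GRD := st_GRD
  have hCLU : ST_CLU := st_CLU hGRD
  have hGRO : ST_GRO := Pool.Agent.Helper57.CP.GRO hCLU hCW st_C2
  have hBRU : ST_BRU := st_BRU st_BON st_CRT
  have hSC : ST_SC := st_SC hBRU
  exact main (st_FIN hGRO (hSIV st_SQS hSC) st_TUP st_C2) (st_NUM st_C2)


end Pool.Agent.Helper56.CP
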