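import Pool.Agent.Helper56.CP.Stmts

set_option autoImplicit false

open Finset Filter Topology

namespace Pool.Agent.Helper56.CP

theorem main (hF : ST_FIN) (hN : ST_NUM) : ∀ c : ℝ,
    (c ≤ 2 / 3 ∨ c < Real.exp Real.eulerMascheroniConstant / (4 * C₂)) →
    ∃ x₀ : ℝ, ∀ x : ℕ, x₀ ≤ x →
    (({p ∈ range (x + 1) | Clu p} : Set ℕ).ncard : ℝ) ≤
      x * Real.exp (- c * (Real.log (Real.log x)) ^ 2) := by
  intro c hc
  refine hF c ?_
  rcases hc with h | h
  · exact h.trans_lt hN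
  · exact h

end Pool.Agent.Helper56.CP
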